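import Mathlib
import Pool.Agent.Y552.CT.Defs

/-! Project CT: a subgroup of small index with an eigenvector. -/

set_option autoImplicit false

namespace Pool.Agent.Y38.CT

open Module

universe u v

section

variable {G : Type u} [Group G] {V : Type v} [AddCommGroup V] [Module ℂ V]

/-- the restriction of a representation -/
noncomputable def res (ρ : G →* Module.End ℂ V) (K : Subgroup G) (W : Submodule ℂ V)
    (h : ∀ g ∈ K, ∀ w ∈ W, ρ g w ∈ W) : K →* Module.End ℂ W where
  toFun g := (ρ g).restrict (fun w hw => h g g.2 w hw)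
  map_one' := by
    ext w
    simp
  map_mul' a b := by
    ext w
    simp

theorem res_apply (ρ : G →* Module.End ℂ V) (K : Subgroup G) (W : Submodule ℂ V)
    (h : ∀ g ∈ K, ∀ w ∈ W, ρ g w ∈ W) (g : K) (w : W) :
    ((res ρ K W h g w : W) : V) = ρ g w := rfl

theorem rho_inv (ρ : G →* Module.End ℂ V) (g : G) (v : V) : ρ g⁻¹ (ρ g v) = v := by
  have h : (ρ g⁻¹ * ρ g) v = v := by rw [← map_mul, inv_mul_cancel, map_one]; rfl
  exact h

theorem rho_inj (ρ : G →* Module.End ℂ V) (g : G) : Function.Injective (ρ g) := by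
  intro v w h
  rw [← rho_inv ρ g v, h, rho_inv]

theorem sum_fin [FiniteDimensional ℂ V] {ι : Type*} [Fintype ι] (p : ι → Submodule ℂ V)
    (h : iSupIndep p) : ∑ i, finrank ℂ (p i) ≤ finrank ℂ V := by
  classical
  have h1 := LinearMap.finrank_le_finrank_of_injective (f := DirectSum.coeLinearMap p)
    h.dfinsupp_lsum_injective
  rw [Module.finrank_directSum] at h1
  exact h1

/-- common eigenvectors of commuting operators -/
theorem common [FiniteDimensional ℂ V] (ρ : G →* Module.End ℂ V) (D : Subgroup G)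
    (hD : ∀ a ∈ D, ∀ b ∈ D, ρ a * ρ b = ρ b * ρ a) : ∀ (n : ℕ) (U : Submodule ℂ V),
    finrank ℂ U = n → U ≠ ⊥ → (∀ d ∈ D, ∀ u ∈ U, ρ d u ∈ U) →
    ∃ v : V, v ≠ 0 ∧ ∀ d ∈ D, ∃ c : ℂ, ρ d v = c • v := by
  intro n
  induction n using Nat.strong_induction_on with
  | _ n ih =>
    intro U hU hU0 hst
    by_cases hsc : ∀ d ∈ D, ∃ c : ℂ, ∀ u ∈ U, ρ d u = c • u
    · obtain ⟨v, hv, hv0⟩ := Submodule.exists_mem_ne_zero_of_ne_bot hU0
      refine ⟨v, hv0, fun d hd => ?_⟩
      obtain ⟨c, hc⟩ := hsc d hd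
      exact ⟨c, hc v hv⟩
    · push Not at hsc
      obtain ⟨d, hd, hd2⟩ := hsc
      have : Nontrivial U := Submodule.nontrivial_iff_ne_bot.2 hU0
      obtain ⟨μ, hμ⟩ := Module.End.exists_eigenvalue ((ρ d).restrict (fun u hu => hst d hd u hu))
      obtain ⟨w, hw⟩ := hμ.exists_hasEigenvector
      have hw1 : ρ d (w : V) = μ • (w : V) := by
        have := hw.apply_eq_smul
        exact congrArg Subtype.val this
      have hw0 : (w : V) ≠ 0 := fun h => hw.2 (Subtype.ext h)
      obtain ⟨U', hU'⟩ : ∃ U' : Submodule ℂ V, U' = U ⊓ Module.End.eigenspace (ρ d) μ := ⟨_, rfl⟩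
      have hlt : U' < U := by
        refine lt_of_le_of_ne (by rw [hU']; exact inf_le_left) (fun he => ?_)
        obtain ⟨u, hu, hu2⟩ := hd2 μ
        rw [← he, hU'] at hu
        exact hu2 (Module.End.mem_eigenspace_iff.1 hu.2)
      refine ih (finrank ℂ U') ?_ U' rfl ?_ ?_
      · rw [← hU]
        exact Submodule.finrank_lt_finrank_of_lt hlt
      · intro h0
        have : (w : V) ∈ U' := by
          rw [hU']
          exact ⟨w.2, Module.End.mem_eigenspace_iff.2 hw1⟩
        rw [h0, Submodule.mem_bot] at this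
        exact hw0 this
      · intro d' hd' u hu
        rw [hU'] at hu ⊢
        refine ⟨hst d' hd' u hu.1, Module.End.mem_eigenspace_iff.2 ?_⟩
        have h1 : (ρ d * ρ d') u = (ρ d' * ρ d) u := by rw [hD d hd d' hd']
        rw [Module.End.mul_apply, Module.End.mul_apply, Module.End.mem_eigenspace_iff.1 hu.2,
          map_smul] at h1
        exact h1

/-- conjugation of the elements of a normal subgroup -/
def cj (D : Subgroup G) [hN : D.Normal] (g : G) (d : D) : D :=
  ⟨g⁻¹ * d * g, by simpa using hN.conj_mem d d.2 g⁻¹⟩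

/-- the action on the weights -/
def act (D : Subgroup G) [D.Normal] (g : G) (χ : D → ℂ) : D → ℂ := fun d => χ (cj D g d)

theorem act_one (D : Subgroup G) [D.Normal] (χ : D → ℂ) : act D 1 χ = χ := by
  funext d
  unfold act cj
  congr 1
  ext
  simp

theorem act_mul (D : Subgroup G) [D.Normal] (g h : G) (χ : D → ℂ) :
    act D (g * h) χ = act D g (act D h χ) := by
  funext d
  unfold act cj
  congr 1
  ext
  simp [mul_assoc]

/-- the weight spaces -/
noncomputable def ws (ρ : G →* Module.End ℂ V) (D : Subgroup G) (χ : D → ℂ) : Submodule ℂ V :=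
  ⨅ d : D, Module.End.eigenspace (ρ d) (χ d)

theorem mem_ws {ρ : G →* Module.End ℂ V} {D : Subgroup G} {χ : D → ℂ} {v : V} :
    v ∈ ws ρ D χ ↔ ∀ d : D, ρ d v = χ d • v := by
  unfold ws
  rw [Submodule.mem_iInf]
  exact forall_congr' fun d => Module.End.mem_eigenspace_iff

theorem ws_act {ρ : G →* Module.End ℂ V} {D : Subgroup G} [D.Normal] {χ : D → ℂ} {v : V}
    (g : G) (hv : v ∈ ws ρ D χ) : ρ g v ∈ ws ρ D (act D g χ) := by
  rw [mem_ws] at hv ⊢
  intro d
  have h1 := hv (cj D g d)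
  have h2 : ρ d (ρ g v) = ρ g (ρ (cj D g d) v) := by
    have h3 : (ρ d * ρ g) v = (ρ g * ρ (cj D g d)) v := by
      rw [← map_mul, ← map_mul]
      congr 2
      unfold cj
      group
    exact h3
  rw [h2, h1, map_smul]
  rfl

theorem ws_indep (ρ : G →* Module.End ℂ V) (D : Subgroup G)
    (hD : ∀ a ∈ D, ∀ b ∈ D, ρ a * ρ b = ρ b * ρ a) : iSupIndep (fun χ : D → ℂ => ws ρ D χ) := by
  have h1 := Module.End.independent_iInf_maxGenEigenspace_of_forall_mapsTo
    (fun d : D => ρ d) (fun i j φ => Module.End.mapsTo_maxGenEigenspace_of_comm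
      (hD j j.2 i i.2) φ)
  exact h1.mono (fun χ => iInf_mono fun d => Module.End.eigenspace_le_maxGenEigenspace)

/-- the main step -/
theorem step [FiniteDimensional ℂ V] [Nontrivial V] (ρ : G →* Module.End ℂ V) (D : Subgroup G)
    [D.Normal] (hD : ∀ a ∈ D, ∀ b ∈ D, ρ a * ρ b = ρ b * ρ a) :
    ∃ (K : Subgroup G) (W : Submodule ℂ V), W ≠ ⊥ ∧ (∀ g ∈ K, ∀ w ∈ W, ρ g w ∈ W) ∧
      K.index ≠ 0 ∧ K.index * finrank ℂ W ≤ finrank ℂ V ∧
      ∀ d ∈ D, ∃ c : ℂ, ∀ w ∈ W, ρ d w = c • w := by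
  classical
  obtain ⟨v, hv0, hv⟩ := common ρ D hD (finrank ℂ (⊤ : Submodule ℂ V)) ⊤ rfl top_ne_bot
    (fun _ _ _ _ => Submodule.mem_top)
  choose! χ0 hχ0 using hv
  obtain ⟨χ, hχ⟩ : ∃ χ : D → ℂ, χ = fun d : D => χ0 (d : G) := ⟨_, rfl⟩
  have hvχ : v ∈ ws ρ D χ := by
    rw [mem_ws]
    intro d
    rw [hχ]
    exact hχ0 d d.2
  obtain ⟨K, hK⟩ : ∃ K : Subgroup G, ∀ g, g ∈ K ↔ act D g χ = χ := by
    refine ⟨{ carrier := {g | act D g χ = χ}, one_mem' := act_one D χ, mul_mem' := ?_,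
              inv_mem' := ?_ }, fun g => Iff.rfl⟩
    · intro a b ha hb
      rw [Set.mem_ofPred_eq] at ha hb ⊢
      rw [act_mul, hb, ha]
    · intro a ha
      rw [Set.mem_ofPred_eq] at ha ⊢
      conv_lhs => rw [← ha]
      rw [← act_mul, inv_mul_cancel, act_one]
  have hinj : ∀ g h : G, act D g χ = act D h χ → (g : G ⧸ K) = h := by
    intro g h he
    rw [QuotientGroup.eq, hK, act_mul, ← he, ← act_mul, inv_mul_cancel, act_one]
  obtain ⟨p, hp⟩ : ∃ p : G ⧸ K → Submodule ℂ V,
      p = fun q => ws ρ D (act D (Quotient.out q) χ) := ⟨_, rfl⟩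
  have hpi : iSupIndep p := by
    rw [hp]
    refine (ws_indep ρ D hD).comp (f := fun q : G ⧸ K => act D (Quotient.out q) χ) ?_
    intro q q' he
    have h1 := hinj _ _ he
    rwa [QuotientGroup.out_eq', QuotientGroup.out_eq'] at h1
  have hle : ∀ q, finrank ℂ (ws ρ D χ) ≤ finrank ℂ (p q) := by
    intro q
    rw [hp]
    refine LinearMap.finrank_le_finrank_of_injective
      (f := (ρ (Quotient.out q)).restrict (fun w hw => ws_act (Quotient.out q) hw)) ?_
    intro a b hab
    exact Subtype.ext (rho_inj ρ _ (congrArg Subtype.val hab))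
  have hws0 : ws ρ D χ ≠ ⊥ := by
    intro h0
    rw [h0, Submodule.mem_bot] at hvχ
    exact hv0 hvχ
  have hws1 : 1 ≤ finrank ℂ (ws ρ D χ) := Submodule.one_le_finrank_iff.2 hws0
  have hpn : ∀ q, p q ≠ ⊥ := fun q => Submodule.one_le_finrank_iff.1 (hws1.trans (hle q))
  have : Finite (G ⧸ K) := WellFoundedGT.finite_of_iSupIndep hpi hpn
  have := Fintype.ofFinite (G ⧸ K)
  refine ⟨K, ws ρ D χ, hws0, ?_, ?_, ?_, ?_⟩
  · intro g hg w hw
    have h1 := ws_act g hw
    rwa [(hK g).1 hg] at h1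
  · unfold Subgroup.index
    exact Nat.card_pos.ne'
  · unfold Subgroup.index
    rw [Nat.card_eq_fintype_card]
    calc Fintype.card (G ⧸ K) * finrank ℂ (ws ρ D χ) = ∑ _q : G ⧸ K, finrank ℂ (ws ρ D χ) := by
          rw [Finset.sum_const, smul_eq_mul, Finset.card_univ]
      _ ≤ ∑ q : G ⧸ K, finrank ℂ (p q) := Finset.sum_le_sum fun q _ => hle q
      _ ≤ _ := sum_fin p hpi
  · intro d hd
    exact ⟨χ ⟨d, hd⟩, fun w hw => (mem_ws.1 hw) ⟨d, hd⟩⟩

theorem comm_inv {ρ : G →* Module.End ℂ V} {x y : G} (h : Commute (ρ x) (ρ y)) :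
    Commute (ρ x⁻¹) (ρ y) := by
  have h1 : ρ x⁻¹ * ρ x = 1 := by rw [← map_mul, inv_mul_cancel, map_one]
  have h2 : ρ x * ρ x⁻¹ = 1 := by rw [← map_mul, mul_inv_cancel, map_one]
  show ρ x⁻¹ * ρ y = ρ y * ρ x⁻¹
  calc ρ x⁻¹ * ρ y = ρ x⁻¹ * (ρ y * ρ x) * ρ x⁻¹ := by
        rw [mul_assoc, mul_assoc, h2, mul_one]
    _ = ρ x⁻¹ * (ρ x * ρ y) * ρ x⁻¹ := by rw [h.eq]
    _ = ρ y * ρ x⁻¹ := by rw [← mul_assoc, h1, one_mul]

/-- the elements which commute with `y` -/
def cen (ρ : G →* Module.End ℂ V) (y : G) : Subgroup G where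
  carrier := {x | Commute (ρ x) (ρ y)}
  one_mem' := by
    rw [Set.mem_ofPred_eq, map_one]
    exact Commute.one_left _
  mul_mem' := by
    intro a b ha hb
    rw [Set.mem_ofPred_eq] at ha hb ⊢
    rw [map_mul]
    exact ha.mul_left hb
  inv_mem' := by
    intro a ha
    exact comm_inv ha

theorem mem_cen {ρ : G →* Module.End ℂ V} {x y : G} : x ∈ cen ρ y ↔ Commute (ρ x) (ρ y) :=
  Iff.rfl

end

theorem main : ∀ (n : ℕ) (G : Type u) [Group G] (V : Type v) [AddCommGroup V] [Module ℂ V]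
    [FiniteDimensional ℂ V] [Nontrivial V] (ρ : G →* Module.End ℂ V), finrank ℂ V = n →
    (∀ a ∈ commutator G, ∀ b ∈ commutator G, ρ a * ρ b = ρ b * ρ a) →
    ∃ H : Subgroup G, H.index ≠ 0 ∧ H.index ≤ Module.finrank ℂ V ∧ ∃ v : V, v ≠ 0 ∧
      ∀ g ∈ H, ∃ c : ℂ, ρ g v = c • v := by
  intro n
  induction n using Nat.strong_induction_on with
  | _ n ih =>
    intro G _ V _ _ _ _ ρ hn hcom
    -- the induction step for a normal subgroup which does not act by scalars
    have key : ∀ D : Subgroup G, D.Normal → (∀ a ∈ D, ∀ b ∈ D, ρ a * ρ b = ρ b * ρ a) →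
        (¬ ∀ d ∈ D, ∃ c : ℂ, ∀ w : V, ρ d w = c • w) →
        ∃ H : Subgroup G, H.index ≠ 0 ∧ H.index ≤ Module.finrank ℂ V ∧ ∃ v : V, v ≠ 0 ∧
          ∀ g ∈ H, ∃ c : ℂ, ρ g v = c • v := by
      intro D hDn hD hns
      obtain ⟨K, W, hW0, hKW, hK0, hKi, hKs⟩ := step ρ D hD
      have hWt : W ≠ ⊤ := by
        rintro rfl
        refine hns (fun d hd => ?_)
        obtain ⟨c, hc⟩ := hKs d hd
        exact ⟨c, fun w => hc w Submodule.mem_top⟩
      have hlt : finrank ℂ W < n := by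
        rw [← hn]
        exact Submodule.finrank_lt hWt
      have : Nontrivial W := Submodule.nontrivial_iff_ne_bot.2 hW0
      have hK' : ∀ a : K, a ∈ commutator K → (a : G) ∈ commutator G := by
        intro a ha
        have h1 : (a : G) ∈ (commutator K).map K.subtype := ⟨a, ha, rfl⟩
        rw [Subgroup.map_subtype_commutator] at h1
        exact Subgroup.commutator_mono le_top le_top h1
      obtain ⟨H0, h1, h2, w, hw0, hw⟩ := ih (finrank ℂ W) hlt K W (res ρ K W hKW) rfl (by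
        intro a ha b hb
        ext w
        have h1 := hcom a (hK' a ha) b (hK' b hb)
        have h2 : (ρ a * ρ b) (w : V) = (ρ b * ρ a) w := by rw [h1]
        exact h2)
      refine ⟨H0.map K.subtype, ?_, ?_, (w : V), fun h => hw0 (Subtype.ext h), ?_⟩
      · rw [Subgroup.index_map_subtype]
        exact mul_ne_zero h1 hK0
      · rw [Subgroup.index_map_subtype]
        calc H0.index * K.index ≤ finrank ℂ W * K.index := Nat.mul_le_mul_right _ h2
          _ = K.index * finrank ℂ W := mul_comm _ _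
          _ ≤ _ := hKi
      · rintro g ⟨k, hk, rfl⟩
        obtain ⟨c, hc⟩ := hw k hk
        exact ⟨c, congrArg Subtype.val hc⟩
    by_cases h1 : ∀ d ∈ commutator G, ∃ c : ℂ, ∀ w : V, ρ d w = c • w
    · by_cases h2 : ∀ g : G, ∃ c : ℂ, ∀ w : V, ρ g w = c • w
      · obtain ⟨v, hv⟩ := exists_ne (0 : V)
        refine ⟨⊤, by rw [Subgroup.index_top]; exact one_ne_zero, ?_, v, hv, fun g _ => ?_⟩
        · rw [Subgroup.index_top]
          exact Module.finrank_pos
        · obtain ⟨c, hc⟩ := h2 g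
          exact ⟨c, hc v⟩
      · push Not at h2
        obtain ⟨q, hq⟩ := h2
        have hsc : ∀ d ∈ commutator G, ∀ y : G, Commute (ρ d) (ρ y) := by
          intro d hd y
          obtain ⟨c, hc⟩ := h1 d hd
          show ρ d * ρ y = ρ y * ρ d
          ext w
          rw [Module.End.mul_apply, Module.End.mul_apply, hc, hc, map_smul]
        obtain ⟨D, hDd⟩ : ∃ D : Subgroup G, D = commutator G ⊔ Subgroup.zpowers q := ⟨_, rfl⟩
        have hc1 : commutator G ≤ D := by rw [hDd]; exact le_sup_left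
        have hqD : q ∈ D := by
          rw [hDd]
          exact (le_sup_right : Subgroup.zpowers q ≤ _) (Subgroup.mem_zpowers q)
        have hDn : D.Normal := by
          refine ⟨fun d hd g => ?_⟩
          have h3 : g * d * g⁻¹ = g * d * g⁻¹ * d⁻¹ * d := by group
          have h7 : g * d * g⁻¹ * d⁻¹ ∈ commutator G :=
            Subgroup.commutator_mem_commutator (Subgroup.mem_top g) (Subgroup.mem_top d)
          rw [h3]
          exact D.mul_mem (hc1 h7) hd
        have h4 : D ≤ cen ρ q := by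
          rw [hDd]
          refine sup_le (fun d hd => hsc d hd q) ?_
          rw [Subgroup.zpowers_le]
          exact Commute.refl _
        have h5 : ∀ y ∈ D, D ≤ cen ρ y := by
          intro y hy
          rw [hDd]
          refine sup_le (fun d hd => hsc d hd y) ?_
          rw [Subgroup.zpowers_le]
          exact (mem_cen.1 (h4 hy)).symm
        refine key D hDn (fun a ha b hb => (mem_cen.1 (h5 b hb ha)).eq) ?_
        intro h6
        obtain ⟨c, hc⟩ := h6 q hqD
        obtain ⟨w, hw⟩ := hq c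
        exact hw (hc w)
    · exact key (commutator G) inferInstance hcom h1

theorem eig : Pool.Agent.Y552.CT.S_EIG.{u, v} := by
  intro G _ V _ _ _ _ ρ h
  exact main _ G V ρ rfl h

end Pool.Agent.Y38.CT
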